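import Pool.Agent.W988.WD.Defs

/-!
Project WD (helper988), part LSC: contractivity and lower semicontinuity of a normal conditional
expectation.
-/

set_option autoImplicit false
open scoped InnerProductSpace Topology
open Filter

namespace Pool.Agent.W249.WD

open Pool.Agent.W988.WD

section

variable {H : Type} [NormedAddCommGroup H] [InnerProductSpace ℂ H] [CompleteSpace H]
  {N M : VonNeumannAlgebra H} {E : (H →L[ℂ] H) → (H →L[ℂ] H)}

lemma smem (M : VonNeumannAlgebra H) (c : ℂ) {x : H →L[ℂ] H} (hx : x ∈ M) : c • x ∈ M :=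
  M.toStarSubalgebra.smul_mem hx c

lemma one_mem' (M : VonNeumannAlgebra H) : (1 : H →L[ℂ] H) ∈ M :=
  M.toStarSubalgebra.one_mem

lemma E_neg (hE : IsNCE N M E) {x : H →L[ℂ] H} (hx : x ∈ M) : E (-x) = -E x := by
  have h := hE.smul (-1) x hx
  rwa [neg_one_smul, neg_one_smul] at h

lemma E_sub (hE : IsNCE N M E) {x y : H →L[ℂ] H} (hx : x ∈ M) (hy : y ∈ M) :
    E (x - y) = E x - E y := by
  rw [sub_eq_add_neg, hE.add x hx (-y) (neg_mem hy), E_neg hE hy, sub_eq_add_neg]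

lemma re_smul_inner (a : ℝ) (v : H) : RCLike.re (((a : ℝ) : ℂ) * ⟪v, v⟫_ℂ) = a * ‖v‖ ^ 2 := by
  change (((a : ℝ) : ℂ) * ⟪v, v⟫_ℂ).re = _
  rw [Complex.re_ofReal_mul]
  congr 1
  exact inner_self_eq_norm_sq (𝕜 := ℂ) v

lemma pos_add {x : H →L[ℂ] H} (hx : star x = x) :
    (((‖x‖ : ℝ) : ℂ) • (1 : H →L[ℂ] H) + x).IsPositive := by
  rw [ContinuousLinearMap.isPositive_def']
  constructor
  · rw [isSelfAdjoint_iff, star_add, star_smul, star_one, hx]
    congr 2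
    exact Complex.conj_ofReal _
  · intro v
    rw [ContinuousLinearMap.reApplyInnerSelf_apply]
    have e1 : ((((‖x‖ : ℝ) : ℂ) • (1 : H →L[ℂ] H) + x) v) = ((‖x‖ : ℝ) : ℂ) • v + x v := rfl
    rw [e1, inner_add_left, inner_smul_left, map_add, Complex.conj_ofReal]
    have e2 : RCLike.re ((((‖x‖ : ℝ) : ℂ)) * ⟪v, v⟫_ℂ) = ‖x‖ * ‖v‖ ^ 2 := re_smul_inner _ v
    rw [e2]
    have e3 : ‖⟪x v, v⟫_ℂ‖ ≤ ‖x‖ * ‖v‖ * ‖v‖ :=
      (norm_inner_le_norm _ _).trans (mul_le_mul_of_nonneg_right (x.le_opNorm v) (norm_nonneg v))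
    have e4 : -‖⟪x v, v⟫_ℂ‖ ≤ RCLike.re (⟪x v, v⟫_ℂ) :=
      (abs_le.mp (RCLike.abs_re_le_norm (⟪x v, v⟫_ℂ))).1
    nlinarith

lemma E_sa (hE : IsNCE N M E) {x : H →L[ℂ] H} (hx : x ∈ M) (hs : star x = x) :
    star (E x) = E x := by
  have h1 := (hE.pos _ (add_mem (smem M _ (one_mem' M)) hx) (pos_add hs)).isSelfAdjoint
  rw [hE.add _ (smem M _ (one_mem' M)) _ hx, hE.smul _ _ (one_mem' M), hE.one,
    isSelfAdjoint_iff, star_add, star_smul, star_one] at h1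
  have h2 : star (((‖x‖ : ℝ) : ℂ)) = ((‖x‖ : ℝ) : ℂ) := Complex.conj_ofReal _
  rw [h2] at h1
  exact add_left_cancel h1

lemma E_star (hE : IsNCE N M E) {y : H →L[ℂ] H} (hy : y ∈ M) : E (star y) = star (E y) := by
  have hsy : star y ∈ M := star_mem hy
  obtain ⟨a, ha⟩ : ∃ a : H →L[ℂ] H, a = (2⁻¹ : ℂ) • (y + star y) := ⟨_, rfl⟩
  obtain ⟨b, hb⟩ : ∃ b : H →L[ℂ] H, b = ((2⁻¹ : ℂ) * -Complex.I) • (y - star y) := ⟨_, rfl⟩
  have ham : a ∈ M := by rw [ha]; exact smem M _ (add_mem hy hsy)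
  have hbm : b ∈ M := by rw [hb]; exact smem M _ (sub_mem hy hsy)
  have h2 : star (2⁻¹ : ℂ) = 2⁻¹ := by
    rw [star_inv₀]
    congr 1
    exact Complex.conj_ofNat 2
  have hI : star Complex.I = -Complex.I := Complex.conj_I
  have hsa : star a = a := by
    rw [ha, star_smul, star_add, star_star, add_comm, h2]
  have hsb : star b = b := by
    rw [hb, star_smul, star_sub, star_star, star_mul', h2, star_neg, hI, neg_neg, mul_neg,
      neg_smul, ← smul_neg, neg_sub]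
  have e1 : y = a + Complex.I • b := by
    rw [ha, hb, smul_smul]
    have : Complex.I * (2⁻¹ * -Complex.I) = 2⁻¹ := by
      have := Complex.I_mul_I
      linear_combination (-(2⁻¹ : ℂ)) * this
    rw [this, ← smul_add, add_add_sub_cancel, ← two_smul ℂ y, smul_smul,
      inv_mul_cancel₀ two_ne_zero, one_smul]
  have e2 : star y = a + (-Complex.I) • b := by
    rw [e1, star_add, star_smul, hsa, hsb, hI]
  rw [e2]
  conv_rhs => rw [e1]
  rw [hE.add a ham _ (smem M _ hbm), hE.smul _ b hbm, hE.add a ham _ (smem M _ hbm),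
    hE.smul _ b hbm, star_add, star_smul, E_sa hE ham hsa, E_sa hE hbm hsb, hI]

/-- the Kadison-Schwarz inequality -/
lemma KS (hNM : ∀ a ∈ N, a ∈ M) (hE : IsNCE N M E) {x : H →L[ℂ] H} (hx : x ∈ M) :
    (E (star x * x) - star (E x) * E x).IsPositive := by
  obtain ⟨e, he⟩ : ∃ e, e = E x := ⟨_, rfl⟩
  have heN : e ∈ N := he ▸ hE.mem x hx
  have heM : e ∈ M := hNM e heN
  have hsx : star x ∈ M := star_mem hx
  have hse : star e ∈ M := star_mem heM
  have hseN : star e ∈ N := star_mem heN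
  have hz : x - e ∈ M := sub_mem hx heM
  have h1 : (star (x - e) * (x - e)).IsPositive :=
    ContinuousLinearMap.isPositive_adjoint_comp_self (x - e)
  have h2 := hE.pos _ (mul_mem (star_mem hz) hz) h1
  have h3 : star (x - e) * (x - e) = (star x * x - star x * e) - (star e * x - star e * e) := by
    rw [star_sub]
    noncomm_ring
  have g1 : E (star x * e) = star e * e := by
    have := hE.bimod 1 (one_mem' N) e heN (star x) hsx
    rw [one_mul, one_mul, E_star hE hx, ← he] at this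
    exact this
  have g2 : E (star e * x) = star e * e := by
    have := hE.bimod (star e) hseN 1 (one_mem' N) x hx
    rw [mul_one, mul_one, ← he] at this
    exact this
  have g3 : E (star e * e) = star e * e := by
    have := hE.bimod (star e) hseN e heN 1 (one_mem' M)
    rw [mul_one, hE.one, mul_one] at this
    exact this
  rw [h3, E_sub hE (sub_mem (mul_mem hsx hx) (mul_mem hsx heM))
    (sub_mem (mul_mem hse hx) (mul_mem hse heM)),
    E_sub hE (mul_mem hsx hx) (mul_mem hsx heM), E_sub hE (mul_mem hse hx) (mul_mem hse heM),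
    g1, g2, g3, sub_self, sub_zero] at h2
  rw [← he]
  exact h2

lemma pos_norm (x : H →L[ℂ] H) :
    (((‖x‖ ^ 2 : ℝ) : ℂ) • (1 : H →L[ℂ] H) - star x * x).IsPositive := by
  rw [ContinuousLinearMap.isPositive_def']
  constructor
  · rw [isSelfAdjoint_iff, star_sub, star_smul, star_one, star_mul, star_star]
    congr 2
    exact Complex.conj_ofReal _
  · intro v
    rw [ContinuousLinearMap.reApplyInnerSelf_apply]
    have e1 : ((((‖x‖ ^ 2 : ℝ) : ℂ) • (1 : H →L[ℂ] H) - star x * x) v) =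
        ((‖x‖ ^ 2 : ℝ) : ℂ) • v - (ContinuousLinearMap.adjoint x) (x v) := rfl
    rw [e1, inner_sub_left, inner_smul_left, map_sub, Complex.conj_ofReal,
      ContinuousLinearMap.adjoint_inner_left]
    have e2 : RCLike.re ((((‖x‖ ^ 2 : ℝ) : ℂ)) * ⟪v, v⟫_ℂ) = ‖x‖ ^ 2 * ‖v‖ ^ 2 :=
      re_smul_inner _ v
    have e3 : RCLike.re (⟪x v, x v⟫_ℂ) = ‖x v‖ ^ 2 := inner_self_eq_norm_sq (x v)
    rw [e2, e3]
    have e4 : ‖x v‖ ^ 2 ≤ (‖x‖ * ‖v‖) ^ 2 :=
      pow_le_pow_left₀ (norm_nonneg _) (x.le_opNorm v) 2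
    nlinarith

lemma E_norm (hNM : ∀ a ∈ N, a ∈ M) (hE : IsNCE N M E) {x : H →L[ℂ] H} (hx : x ∈ M) :
    ‖E x‖ ≤ ‖x‖ := by
  refine ContinuousLinearMap.opNorm_le_bound _ (norm_nonneg x) fun v => ?_
  have h1 := (KS hNM hE hx).re_inner_nonneg_right v
  have hxx : star x * x ∈ M := mul_mem (star_mem hx) hx
  have h2 := (hE.pos _ (sub_mem (smem M _ (one_mem' M)) hxx)
    (pos_norm x)).re_inner_nonneg_right v
  rw [E_sub hE (smem M _ (one_mem' M)) hxx, hE.smul _ _ (one_mem' M), hE.one] at h2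
  have e1 : ((((‖x‖ ^ 2 : ℝ) : ℂ) • (1 : H →L[ℂ] H) - E (star x * x)) v) =
        ((‖x‖ ^ 2 : ℝ) : ℂ) • v - E (star x * x) v := rfl
  have e2 : (E (star x * x) - star (E x) * E x) v =
      E (star x * x) v - (ContinuousLinearMap.adjoint (E x)) (E x v) := rfl
  rw [e1, inner_sub_right, inner_smul_right, map_sub] at h2
  rw [e2, inner_sub_right, map_sub, ContinuousLinearMap.adjoint_inner_right] at h1
  have e3 : RCLike.re ((((‖x‖ ^ 2 : ℝ) : ℂ)) * ⟪v, v⟫_ℂ) = ‖x‖ ^ 2 * ‖v‖ ^ 2 :=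
    re_smul_inner _ v
  have e4 : RCLike.re (⟪E x v, E x v⟫_ℂ) = ‖E x v‖ ^ 2 := inner_self_eq_norm_sq (E x v)
  rw [e3] at h2
  rw [e4] at h1
  have h5 : ‖E x v‖ ^ 2 ≤ (‖x‖ * ‖v‖) ^ 2 := by
    rw [mul_pow]
    linarith
  exact abs_le_of_sq_le_sq' h5 (by positivity) |>.2

end

theorem p_LSC (h : S_CPT) : S_LSC := by
  intro H _ _ _ N M E hNM hE
  refine ⟨fun x hx => E_norm hNM hE hx, ?_⟩
  intro U z w R hR hz hw ξ r hr
  have hwM : w ∈ M := (h H ℕ U z).2 w hw M hz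
  have hsw : star w ∈ M := star_mem hwM
  obtain ⟨s, t, hs, ht, hf0⟩ := hE.normal ξ ξ
  have hf : ∀ x ∈ M, ⟪ξ, E x ξ⟫_ℂ = ∑' n, ⟪t n, x (s n)⟫_ℂ := hf0
  have hR0 : 0 ≤ R := (norm_nonneg _).trans (hR 0)
  -- convergence
  have hlim : Tendsto (fun i => ⟪ξ, E (star w * z i) ξ⟫_ℂ) (U : Filter ℕ)
      (𝓝 ⟪ξ, E (star w * w) ξ⟫_ℂ) := by
    have h1 : ∀ i, ⟪ξ, E (star w * z i) ξ⟫_ℂ = ∑' n, ⟪w (t n), z i (s n)⟫_ℂ := by
      intro i
      rw [hf _ (mul_mem hsw (hz i))]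
      congr 1
      funext n
      change ⟪t n, (ContinuousLinearMap.adjoint w) (z i (s n))⟫_ℂ = _
      rw [ContinuousLinearMap.adjoint_inner_right]
    have h2 : ⟪ξ, E (star w * w) ξ⟫_ℂ = ∑' n, ⟪w (t n), w (s n)⟫_ℂ := by
      rw [hf _ (mul_mem hsw hwM)]
      congr 1
      funext n
      change ⟪t n, (ContinuousLinearMap.adjoint w) (w (s n))⟫_ℂ = _
      rw [ContinuousLinearMap.adjoint_inner_right]
    simp only [h1]
    rw [h2]
    refine tendsto_tsum_of_dominated_convergence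
      (bound := fun n => ‖w‖ * R * (‖s n‖ ^ 2 + ‖t n‖ ^ 2)) ((hs.add ht).mul_left _)
      (fun n => hw (s n) (w (t n))) (Eventually.of_forall fun i n => ?_)
    have e1 : ‖⟪w (t n), z i (s n)⟫_ℂ‖ ≤ ‖w (t n)‖ * ‖z i (s n)‖ := norm_inner_le_norm _ _
    have e2 : ‖w (t n)‖ ≤ ‖w‖ * ‖t n‖ := w.le_opNorm _
    have e3 : ‖z i (s n)‖ ≤ R * ‖s n‖ :=
      ((z i).le_opNorm _).trans (mul_le_mul_of_nonneg_right (hR i) (norm_nonneg _))
    have e4 : ‖w (t n)‖ * ‖z i (s n)‖ ≤ (‖w‖ * ‖t n‖) * (R * ‖s n‖) :=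
      mul_le_mul e2 e3 (norm_nonneg _) (by positivity)
    have e5 : ‖t n‖ * ‖s n‖ ≤ ‖s n‖ ^ 2 + ‖t n‖ ^ 2 := by
      nlinarith [sq_nonneg (‖t n‖ - ‖s n‖), sq_nonneg (‖t n‖), sq_nonneg (‖s n‖),
        mul_nonneg (norm_nonneg (t n)) (norm_nonneg (s n))]
    have e6 : ‖w‖ * R * (‖t n‖ * ‖s n‖) ≤ ‖w‖ * R * (‖s n‖ ^ 2 + ‖t n‖ ^ 2) :=
      mul_le_mul_of_nonneg_left e5 (by positivity)
    calc ‖⟪w (t n), z i (s n)⟫_ℂ‖ ≤ (‖w‖ * ‖t n‖) * (R * ‖s n‖) := e1.trans e4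
      _ = ‖w‖ * R * (‖t n‖ * ‖s n‖) := by ring
      _ ≤ _ := e6
  have hre : Tendsto (fun i => 2 * (⟪ξ, E (star w * z i) ξ⟫_ℂ).re -
      (⟪ξ, E (star w * w) ξ⟫_ℂ).re) (U : Filter ℕ)
      (𝓝 (2 * (⟪ξ, E (star w * w) ξ⟫_ℂ).re - (⟪ξ, E (star w * w) ξ⟫_ℂ).re)) :=
    (((Complex.continuous_re.tendsto _).comp hlim).const_mul 2).sub_const _
  have hle : ∀ i, 2 * (⟪ξ, E (star w * z i) ξ⟫_ℂ).re - (⟪ξ, E (star w * w) ξ⟫_ℂ).re ≤ r := by
    intro i
    have hzi : z i - w ∈ M := sub_mem (hz i) hwM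
    have hszi : star (z i) ∈ M := star_mem (hz i)
    have h1 : (star (z i - w) * (z i - w)).IsPositive :=
      ContinuousLinearMap.isPositive_adjoint_comp_self (z i - w)
    have h2 := (hE.pos _ (mul_mem (star_mem hzi) hzi) h1).re_inner_nonneg_right ξ
    have h3 : star (z i - w) * (z i - w) =
        (star (z i) * z i - star (z i) * w) - (star w * z i - star w * w) := by
      rw [star_sub]
      noncomm_ring
    rw [h3, E_sub hE (sub_mem (mul_mem hszi (hz i)) (mul_mem hszi hwM))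
      (sub_mem (mul_mem hsw (hz i)) (mul_mem hsw hwM)),
      E_sub hE (mul_mem hszi (hz i)) (mul_mem hszi hwM),
      E_sub hE (mul_mem hsw (hz i)) (mul_mem hsw hwM)] at h2
    have e1 : ((E (star (z i) * z i) - E (star (z i) * w)) -
        (E (star w * z i) - E (star w * w))) ξ =
        (E (star (z i) * z i) ξ - E (star (z i) * w) ξ) -
        (E (star w * z i) ξ - E (star w * w) ξ) := rfl
    rw [e1, inner_sub_right, inner_sub_right, inner_sub_right, map_sub, map_sub, map_sub] at h2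
    have e2 : E (star (z i) * w) = star (E (star w * z i)) := by
      rw [← E_star hE (mul_mem hsw (hz i)), star_mul, star_star]
    have e3 : (⟪ξ, E (star (z i) * w) ξ⟫_ℂ).re = (⟪ξ, E (star w * z i) ξ⟫_ℂ).re := by
      rw [e2]
      change (⟪ξ, (ContinuousLinearMap.adjoint (E (star w * z i))) ξ⟫_ℂ).re = _
      rw [ContinuousLinearMap.adjoint_inner_right, ← inner_conj_symm]
      exact Complex.conj_re _
    have h4 : 0 ≤ ((⟪ξ, E (star (z i) * z i) ξ⟫_ℂ).re - (⟪ξ, E (star (z i) * w) ξ⟫_ℂ).re) -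
      ((⟪ξ, E (star w * z i) ξ⟫_ℂ).re - (⟪ξ, E (star w * w) ξ⟫_ℂ).re) := h2
    rw [e3] at h4
    have h5 := hr i
    linarith
  have h6 := le_of_tendsto hre (Eventually.of_forall hle)
  linarith

end Pool.Agent.W249.WD

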